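import Pool.Agent.TD.Limit
import Pool.Agent.TD.Final

/-!
# Infinite transitivity degree without high transitivity

There is a countable torsion-free group that has, for every `k`, a faithful `k`-transitive action on
an infinite set, but no highly transitive action on an infinite set, faithful or not.
-/

set_option autoImplicit false

namespace Pool.Agent.Results.MP_405426_al.InfiniteDegree

universe u

/-- The action of `G` on `X` is `k`-transitive: `X` has at least `k` points, and for any two
`k`-tuples of pairwise distinct points of `X` some `g` in `G` carries the first to the second. -/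
def KTransitive (G : Type) (X : Type u) [Group G] [MulAction G X] (k : ℕ) : Prop :=
  (∃ x : Fin k → X, Function.Injective x) ∧
    ∀ x y : Fin k → X, Function.Injective x → Function.Injective y → ∃ g : G, ∀ i, g • x i = y i

/-- **Theorem.** Q1 is false: there is a countable group `G`, even a torsion-free one, that has for
every `k` a faithful `k`-transitive action, even on an infinite set, but that has no action on an
infinite set, faithful or not, which is `k`-transitive for every `k`. -/
theorem result : ∃ (G : Type) (_ : Group G), Countable G ∧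
    (∀ (g : G) (n : ℕ), 0 < n → g ^ n = 1 → g = 1) ∧
    (∀ k : ℕ, ∃ (X : Type) (_ : MulAction G X),
      (∀ g : G, (∀ x : X, g • x = x) → g = 1) ∧ Infinite X ∧ KTransitive G X k) ∧
    ∀ (X : Type u) (_ : MulAction G X), Infinite X → ¬ ∀ k : ℕ, KTransitive G X k := by
  obtain ⟨G, i1, i2, M, hM⟩ := TD.exists_limit
  have htf : ∀ (g : G) (n : ℕ), 0 < n → g ^ n = 1 → g = 1 := fun g n hn hg => hM.tf g n hn.ne' hg
  refine ⟨G, i1, i2, htf, fun k => ?_, fun X i3 hX hk => ?_⟩
  · obtain ⟨X, i3, hf, ⟨e⟩, ht⟩ := hM.transitive k
    have hinf : Infinite X := by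
      rw [← not_finite_iff_infinite]
      intro hfin
      obtain ⟨c, hc, -⟩ := hM.sep0
      have hinj : Function.Injective (MulAction.toPerm : G → Equiv.Perm X) :=
        MulAction.toPerm_injective
      have : Finite G := Finite.of_injective _ hinj
      exact hc (htf c (orderOf c) (orderOf_pos c) (pow_orderOf_eq_one c))
    refine ⟨X, i3, fun g hg => ?_, hinf, ⟨e, e.injective⟩, fun x y hx hy => ?_⟩
    · exact FaithfulSMul.eq_of_smul_eq_smul (α := X) (fun x => by rw [hg x, one_smul])
    · rw [MulAction.isMultiplyPretransitive_iff] at ht
      obtain ⟨g, hg⟩ := ht ⟨x, hx⟩ ⟨y, hy⟩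
      exact ⟨g, fun i => DFunLike.congr_fun hg i⟩
  · obtain ⟨x0⟩ : Nonempty X := inferInstance
    let F : G ⧸ MulAction.stabilizer G x0 → X := MulAction.ofQuotientStabilizer G x0
    have hFi : Function.Injective F := MulAction.injective_ofQuotientStabilizer G x0
    have hFs : ∀ (g : G) (q : G ⧸ MulAction.stabilizer G x0), F (g • q) = g • F q :=
      fun g q => MulAction.ofQuotientStabilizer_smul G x0 g q
    have hFsurj : Function.Surjective F := by
      intro y
      obtain ⟨g, hg⟩ := (hk 1).2 (fun _ => x0) (fun _ => y)
        (Function.injective_of_subsingleton _) (Function.injective_of_subsingleton _)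
      exact ⟨(g : G ⧸ MulAction.stabilizer G x0), hg 0⟩
    have : Infinite (G ⧸ MulAction.stabilizer G x0) := Infinite.of_surjective F hFsurj
    refine hM.not_ht (G ⧸ MulAction.stabilizer G x0) (fun n => ?_)
    rw [MulAction.isMultiplyPretransitive_iff]
    intro x y
    obtain ⟨g, hg⟩ := (hk n).2 (fun i => F (x i)) (fun i => F (y i))
      (hFi.comp x.injective) (hFi.comp y.injective)
    refine ⟨g, ?_⟩
    ext i
    exact hFi ((hFs g (x i)).trans (hg i))

end Pool.Agent.Results.MP_405426_al.InfiniteDegree
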