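import Pool.Agent.MixedId.Core

/-!
# Infinite transitivity degree and high transitivity for groups with a mixed identity

A mixed identity of a group `G` is a nontrivial element `w` of the free product `G * ⟨x⟩` which is
mapped to `1` by every homomorphism `G * ⟨x⟩ → G` extending the identity of `G`. If `G` has a
mixed identity with at most `n` letters `x ^ ± 1`, then every faithful `max n 3`-transitive action
of `G` on an infinite set is highly transitive. In particular a countable group of infinite
transitivity degree which satisfies a mixed identity is highly transitive.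
-/

namespace Pool.Agent.Results.MP_405426_al.MixedIdentity

open MulAction

/-- The free product of `G` with an infinite cyclic group `⟨x⟩`. -/
abbrev FreeProd (G : Type) [Group G] : Type := Monoid.Coprod G (Multiplicative ℤ)

/-- the generator `x` -/
def gen (G : Type) [Group G] : FreeProd G := Monoid.Coprod.inr (Multiplicative.ofAdd (1 : ℤ))

/-- the letter `x` (for `true`) or `x⁻¹` (for `false`) -/
def let' (G : Type) [Group G] (s : Bool) : FreeProd G := if s then gen G else (gen G)⁻¹

/-- the element `a₀ * x ^ s₁ * a₁ * x ^ s₂ * a₂ * ⋯ * x ^ sₗ * aₗ` of `G * ⟨x⟩`, where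
`L = [(s₁, a₁), …, (sₗ, aₗ)]` -/
def word {G : Type} [Group G] (a₀ : G) (L : List (Bool × G)) : FreeProd G :=
  Monoid.Coprod.inl a₀ * (L.map fun p => let' G p.1 * Monoid.Coprod.inl p.2).prod

/-- the homomorphism `G * ⟨x⟩ → G` which is the identity on `G` and maps `x` to `g` -/
def subst {G : Type} [Group G] (g : G) : FreeProd G →* G :=
  Monoid.Coprod.lift (MonoidHom.id G) (zpowersHom G g)

/-- `G` satisfies a mixed identity with at most `n` occurrences of `x ^ ± 1`: some element of
`G * ⟨x⟩` written with at most `n` letters `x ^ ± 1` is nontrivial, but becomes trivial under every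
substitution of `x` by an element of `G` -/
def HasMixedIdentity (G : Type) [Group G] (n : ℕ) : Prop :=
  ∃ (a₀ : G) (L : List (Bool × G)), L.length ≤ n ∧ word a₀ L ≠ 1 ∧ ∀ g : G, subst g (word a₀ L) = 1

lemma word_cons {G : Type} [Group G] (a₀ : G) (s : Bool) (a : G) (L : List (Bool × G)) :
    word a₀ ((s, a) :: L) = Monoid.Coprod.inl a₀ * (let' G s * word a L) := by
  simp only [word, List.map_cons, List.prod_cons, mul_assoc]

/-- every word has a reduced form which is not longer -/
lemma exists_reduced {G : Type} [Group G] :
    ∀ (L : List (Bool × G)) (a₀ : G), ∃ (b₀ : G) (L' : List (Bool × G)),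
      L'.length ≤ L.length ∧ MixedId.Reduced L' ∧ word a₀ L = word b₀ L' := by
  intro L
  induction L with
  | nil => exact fun a₀ => ⟨a₀, [], le_rfl, by simp [MixedId.Reduced], rfl⟩
  | cons p L ih =>
    obtain ⟨s, a⟩ := p
    intro a₀
    obtain ⟨b₀, L', hlen, hred, heq⟩ := ih a
    by_cases hb : b₀ = 1
    · cases L' with
      | nil =>
        refine ⟨a₀, [(s, b₀)], by simp, by simp [MixedId.Reduced], ?_⟩
        rw [word_cons, heq, word_cons]
      | cons q L'' =>
        obtain ⟨t, c⟩ := q
        by_cases hst : s = t
        · refine ⟨a₀, (s, b₀) :: (t, c) :: L'', by simpa using hlen, ?_, ?_⟩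
          · unfold MixedId.Reduced at hred ⊢
            exact List.isChain_cons_cons.2 ⟨fun _ => hst, hred⟩
          · rw [word_cons, heq, word_cons a₀ s b₀]
        · refine ⟨a₀ * c, L'', ?_, ?_, ?_⟩
          · simp only [List.length_cons] at hlen ⊢
            omega
          · unfold MixedId.Reduced at hred ⊢
            exact hred.tail
          · have hcancel : let' G s * let' G t = 1 := by
              cases s <;> cases t <;> simp_all [let']
            rw [word_cons, heq, word_cons, hb, map_one, one_mul, ← mul_assoc (let' G s), hcancel,
              one_mul]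
            simp only [word, map_mul, mul_assoc]
    · refine ⟨a₀, (s, b₀) :: L', by simpa using hlen, ?_, ?_⟩
      · unfold MixedId.Reduced at hred ⊢
        cases L' with
        | nil => simp
        | cons q L'' => exact List.isChain_cons_cons.2 ⟨fun h => absurd h hb, hred⟩
      · rw [word_cons, heq, word_cons a₀ s b₀]

lemma subst_word {G : Type} [Group G] (g : G) :
    ∀ (L : List (Bool × G)) (a₀ : G), subst g (word a₀ L) = a₀ * MixedId.evalList L g := by
  intro L
  induction L with
  | nil => intro a₀; simp [word, subst, MixedId.evalList]
  | cons p L ih =>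
    obtain ⟨s, a⟩ := p
    intro a₀
    rw [word_cons, map_mul, map_mul, ih]
    have h1 : subst g (let' G s) = MixedId.letter s g := by
      cases s <;> simp [let', gen, subst, MixedId.letter]
    have h2 : subst g (Monoid.Coprod.inl a₀) = a₀ := by simp [subst]
    rw [h1, h2]
    rfl

lemma exists_reduced_identity {G : Type} [Group G] {n : ℕ} (h : HasMixedIdentity G n) :
    ∃ (a₀ : G) (L : List (Bool × G)), L.length ≤ n ∧ L ≠ [] ∧ MixedId.Reduced L ∧
      ∀ g : G, a₀ * MixedId.evalList L g = 1 := by
  obtain ⟨a₀, L, hlen, hne, hid⟩ := h
  obtain ⟨b₀, L', hlen', hred, heq⟩ := exists_reduced L a₀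
  refine ⟨b₀, L', hlen'.trans hlen, ?_, hred, ?_⟩
  · rintro rfl
    apply hne
    have h1 := hid 1
    rw [heq, subst_word] at h1
    have h2 : b₀ = 1 := by simpa [MixedId.evalList] using h1
    rw [heq, h2]
    simp [word]
  · intro g
    rw [← subst_word, ← heq]
    exact hid g

/-- Suppose that `G` satisfies a mixed identity with at most `n` occurrences of `x ^ ± 1`. Then every
faithful `max n 3`-transitive action of `G` on an infinite set is `m`-transitive for all `m`. If `G`
is countable and has, for every `k`, a faithful `k`-transitive action on a set with at least `k`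
points, then it has a faithful highly transitive action. -/
theorem result (G : Type) [Group G] [Countable G] (n : ℕ) (hG : HasMixedIdentity G n) :
    (∀ (X : Type) [MulAction G X] [FaithfulSMul G X] [Infinite X],
      IsMultiplyPretransitive G X (max n 3) → ∀ m : ℕ, IsMultiplyPretransitive G X m) ∧
    ((∀ k : ℕ, ∃ (X : Type) (_ : MulAction G X),
        FaithfulSMul G X ∧ Nonempty (Fin k ↪ X) ∧ IsMultiplyPretransitive G X k) →
      ∃ (X : Type) (_ : MulAction G X),
        FaithfulSMul G X ∧ Infinite X ∧ ∀ m : ℕ, IsMultiplyPretransitive G X m) := by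
  obtain ⟨a₀, L, hlen, hne, hred, hid⟩ := exists_reduced_identity hG
  have key : ∀ (X : Type) [MulAction G X] [FaithfulSMul G X] [Infinite X],
      IsMultiplyPretransitive G X (max n 3) → ∀ m : ℕ, IsMultiplyPretransitive G X m := by
    intro X _ _ _ ht m
    exact MixedId.highly_transitive a₀ L hne hred hid (max n 3) (hlen.trans (le_max_left _ _))
      (le_max_right _ _) ht m
  refine ⟨key, fun htd => ?_⟩
  -- `G` is infinite
  have hinf : Infinite G := by
    by_contra hfin
    rw [not_infinite_iff_finite] at hfin
    obtain ⟨X, _, _, ⟨e⟩, ht⟩ := htd (Nat.card G + 1)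
    have h0 : Nat.card G + 1 ≤ Nat.card G := by
      let f : Fin (Nat.card G + 1) → G := fun i =>
        Classical.choose (ht.exists_smul_eq e ((Equiv.swap 0 i).toEmbedding.trans e))
      have hf : ∀ i, f i • e 0 = e i := by
        intro i
        have h1 := Classical.choose_spec
          (ht.exists_smul_eq e ((Equiv.swap 0 i).toEmbedding.trans e))
        have h2 := DFunLike.congr_fun h1 0
        simpa [f] using h2
      have hinj : Function.Injective f := by
        intro i j hij
        apply e.injective
        rw [← hf i, ← hf j, hij]
      have h3 := Nat.card_le_card_of_injective f hinj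
      simpa using h3
    omega
  obtain ⟨X, hact, hfaith, ⟨e⟩, ht⟩ := htd (max n 3)
  have hX : Infinite X := by
    by_contra hfin
    rw [not_infinite_iff_finite] at hfin
    have h1 : Function.Injective (MulAction.toPermHom G X) := by
      intro g h hgh
      apply FaithfulSMul.eq_of_smul_eq_smul (α := X)
      intro x
      exact DFunLike.congr_fun hgh x
    exact not_finite_iff_infinite.2 hinf (Finite.of_injective _ h1)
  exact ⟨X, hact, hfaith, hX, key X ht⟩

end Pool.Agent.Results.MP_405426_al.MixedIdentity
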